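import Mathlib

set_option autoImplicit false

open Finset

namespace Pool.Agent.Results.MP_28c1b3_co.Counter

/-- the power set of `[n] = {1, …, n}` -/
def P (n : ℕ) : Finset (Finset ℕ) := (Icc 1 n).powerset

/-- `t`-avoiding: no two distinct members meet in exactly `t` points -/
def Avoiding (t : ℕ) (F : Finset (Finset ℕ)) : Prop :=
  ∀ A ∈ F, ∀ B ∈ F, A ≠ B → (A ∩ B).card ≠ t

/-- the number of unordered pairs of distinct, disjoint members -/
def d (F : Finset (Finset ℕ)) : ℕ :=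
  ((F.powersetCard 2).filter (fun Q => ∀ A ∈ Q, ∀ B ∈ Q, A ≠ B → A ∩ B = ∅)).card

/-- the family `F(n,t)` -/
def Fam (n t : ℕ) : Finset (Finset ℕ) :=
  if (n + t) % 2 = 1 then (P n).filter (fun A => n + t + 1 ≤ 2 * A.card)
  else (P n).filter (fun A => n + t ≤ 2 * (A ∩ (Icc 1 n \ {1})).card)

/-- the family `F*(n,t) = F(n,t) ∪ [n]^(≤ t-1)` -/
def Fstar (n t : ℕ) : Finset (Finset ℕ) :=
  Fam n t ∪ (P n).filter (fun A => A.card ≤ t - 1)

/-- large subsets of `{2, …, n}` -/
def G (n : ℕ) : Finset (Finset ℕ) :=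
  (Icc 1 n \ {1}).powerset.filter (fun A => n + 1 ≤ 2 * A.card)

/-- the competing family -/
def F' (n : ℕ) : Finset (Finset ℕ) := insert ∅ (insert {1} (G n))

lemma two_le_inter {n : ℕ} (hn : 1 ≤ n) {A B : Finset ℕ} (hA : A ⊆ Icc 1 n \ {1})
    (hB : B ⊆ Icc 1 n \ {1}) (ha : n + 1 ≤ 2 * A.card) (hb : n + 1 ≤ 2 * B.card) :
    2 ≤ (A ∩ B).card := by
  have h1 := card_union_add_card_inter A B
  have h2 : (A ∪ B).card ≤ (Icc 1 n \ {1}).card := card_le_card (union_subset hA hB)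
  have h3 : (Icc 1 n \ {1}).card = n - 1 := by
    rw [card_sdiff_of_subset (by simp [hn])]; simp
  omega

lemma mem_G {n : ℕ} {A : Finset ℕ} :
    A ∈ G n ↔ A ⊆ Icc 1 n \ {1} ∧ n + 1 ≤ 2 * A.card := by
  simp [G]

lemma one_not_mem {n : ℕ} {A : Finset ℕ} (h : A ∈ G n) : 1 ∉ A := by
  intro h1
  have := (mem_G.1 h).1 h1
  simp at this

lemma ne_empty {n : ℕ} {A : Finset ℕ} (h : A ∈ G n) : A ≠ ∅ := by
  rintro rfl
  have := (mem_G.1 h).2
  simp at this

lemma avoiding (n : ℕ) (hn : 1 ≤ n) : Avoiding 1 (F' n) := by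
  intro A hA B hB hne
  simp only [F', mem_insert] at hA hB
  rcases hA with rfl | rfl | hA <;> rcases hB with rfl | rfl | hB
  any_goals simp at hne
  any_goals simp
  · simp [one_not_mem hB]
  · simp [one_not_mem hA]
  · have := two_le_inter hn (mem_G.1 hA).1 (mem_G.1 hB).1 (mem_G.1 hA).2 (mem_G.1 hB).2
    omega

lemma sub (n : ℕ) (hn : 1 ≤ n) : F' n ⊆ P n := by
  intro A hA
  simp only [F', mem_insert] at hA
  rcases hA with rfl | rfl | hA
  · simp [P]
  · simp [P, hn]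
  · exact mem_powerset.2 ((mem_G.1 hA).1.trans sdiff_subset)

lemma mem_Fam {n : ℕ} (hn : n % 2 = 1) {A : Finset ℕ} (h : A ∈ Fam n 1) :
    A.erase 1 ∈ G n := by
  have h2 : ¬ (n + 1) % 2 = 1 := by omega
  simp only [Fam, if_neg h2, mem_filter, P, mem_powerset] at h
  have e : A ∩ (Icc 1 n \ {1}) = A.erase 1 := by
    ext x
    simp only [mem_inter, mem_sdiff, mem_singleton, mem_erase]
    constructor
    · rintro ⟨h1, -, h3⟩; exact ⟨h3, h1⟩
    · rintro ⟨h1, h3⟩; exact ⟨h3, h.1 h3, h1⟩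
  rw [mem_G, ← e]
  exact ⟨inter_subset_right, h.2⟩

lemma upper (n : ℕ) (hn : n % 2 = 1) : d (Fstar n 1) ≤ 2 * (G n).card := by
  have h1 : ((Fstar n 1).powersetCard 2).filter
      (fun Q => ∀ A ∈ Q, ∀ B ∈ Q, A ≠ B → A ∩ B = ∅) ⊆
      (G n).image (fun A => ({∅, A} : Finset (Finset ℕ))) ∪
      (G n).image (fun A => ({∅, insert 1 A} : Finset (Finset ℕ))) := by
    intro Q hQ
    rw [mem_filter, mem_powersetCard, card_eq_two] at hQ
    obtain ⟨⟨hs, A, B, hne, rfl⟩, hd⟩ := hQ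
    have hA : A ∈ Fstar n 1 := hs (by simp)
    have hB : B ∈ Fstar n 1 := hs (by simp)
    have hAB : A ∩ B = ∅ := hd A (by simp) B (by simp) hne
    have key : ∀ C, C ∈ Fam n 1 → ({∅, C} : Finset (Finset ℕ)) ∈
        (G n).image (fun A => ({∅, A} : Finset (Finset ℕ))) ∪
        (G n).image (fun A => ({∅, insert 1 A} : Finset (Finset ℕ))) := by
      intro C hC
      have hG := mem_Fam hn hC
      by_cases h1 : 1 ∈ C
      · exact mem_union_right _ (mem_image.2 ⟨_, hG, by rw [insert_erase h1]⟩)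
      · exact mem_union_left _ (mem_image.2 ⟨_, hG, by rw [erase_eq_of_notMem h1]⟩)
    simp only [Fstar, mem_union, mem_filter, Nat.sub_self, Nat.le_zero, card_eq_zero] at hA hB
    rcases hA with hA | ⟨-, rfl⟩ <;> rcases hB with hB | ⟨-, rfl⟩
    · exfalso
      have a := mem_G.1 (mem_Fam hn hA)
      have b := mem_G.1 (mem_Fam hn hB)
      have h2 := two_le_inter (by omega) a.1 b.1 a.2 b.2
      have h3 : A.erase 1 ∩ B.erase 1 ⊆ A ∩ B :=
        inter_subset_inter (erase_subset _ _) (erase_subset _ _)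
      have h4 := card_le_card h3
      rw [hAB] at h4
      simp at h4
      simp [h4] at h2
    · rw [pair_comm]; exact key A hA
    · exact key B hB
    · exact absurd rfl hne
  have h2 := card_le_card h1
  have h3 := card_union_le ((G n).image (fun A => ({∅, A} : Finset (Finset ℕ))))
    ((G n).image (fun A => ({∅, insert 1 A} : Finset (Finset ℕ))))
  have h4 := card_image_le (s := G n) (f := fun A => ({∅, A} : Finset (Finset ℕ)))
  have h5 := card_image_le (s := G n) (f := fun A => ({∅, insert 1 A} : Finset (Finset ℕ)))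
  unfold d
  omega

lemma pair_inj {n : ℕ} {X A B : Finset ℕ} (hX : X ∉ G n) (hA : A ∈ G n) (hB : B ∈ G n)
    (h : ({X, A} : Finset (Finset ℕ)) = {X, B}) : A = B := by
  have : A ∈ ({X, B} : Finset (Finset ℕ)) := h ▸ by simp
  rcases mem_insert.1 this with rfl | h2
  · exact absurd hA hX
  · exact mem_singleton.1 h2

lemma lower (n : ℕ) : 2 * (G n).card + 1 ≤ d (F' n) := by
  have e0 : (∅ : Finset ℕ) ∉ G n := fun h => ne_empty h rfl
  have e1 : ({1} : Finset ℕ) ∉ G n := fun h => one_not_mem h (by simp)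
  have e01 : (∅ : Finset ℕ) ≠ {1} := by decide
  set S1 := (G n).image (fun A => ({∅, A} : Finset (Finset ℕ))) with hS1
  set S2 := (G n).image (fun A => ({{1}, A} : Finset (Finset ℕ))) with hS2
  have c1 : S1.card = (G n).card :=
    card_image_of_injOn (fun A hA B hB h => pair_inj e0 hA hB h)
  have c2 : S2.card = (G n).card :=
    card_image_of_injOn (fun A hA B hB h => pair_inj e1 hA hB h)
  have dj : Disjoint S1 S2 := by
    rw [disjoint_left]
    intro Q h1 h2
    obtain ⟨A, hA, rfl⟩ := mem_image.1 h1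
    obtain ⟨B, hB, h⟩ := mem_image.1 h2
    have : (∅ : Finset ℕ) ∈ ({{1}, B} : Finset (Finset ℕ)) := h ▸ by simp
    rcases mem_insert.1 this with h3 | h3
    · exact e01 h3
    · exact e0 (mem_singleton.1 h3 ▸ hB)
  have nm : ({∅, {1}} : Finset (Finset ℕ)) ∉ S1 ∪ S2 := by
    intro h
    rcases mem_union.1 h with h | h
    · obtain ⟨A, hA, h⟩ := mem_image.1 h
      have : ({1} : Finset ℕ) ∈ ({∅, A} : Finset (Finset ℕ)) := h ▸ by simp
      rcases mem_insert.1 this with h3 | h3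
      · exact e01 h3.symm
      · exact e1 (mem_singleton.1 h3 ▸ hA)
    · obtain ⟨A, hA, h⟩ := mem_image.1 h
      have : (∅ : Finset ℕ) ∈ ({{1}, A} : Finset (Finset ℕ)) := h ▸ by simp
      rcases mem_insert.1 this with h3 | h3
      · exact e01 h3
      · exact e0 (mem_singleton.1 h3 ▸ hA)
  have good : ∀ X Y : Finset ℕ, X ∈ F' n → Y ∈ F' n → X ≠ Y → X ∩ Y = ∅ →
      ({X, Y} : Finset (Finset ℕ)) ∈ ((F' n).powersetCard 2).filter
        (fun Q => ∀ A ∈ Q, ∀ B ∈ Q, A ≠ B → A ∩ B = ∅) := by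
    intro X Y hX hY hne hd
    rw [mem_filter, mem_powersetCard]
    refine ⟨⟨?_, card_pair hne⟩, ?_⟩
    · intro Z hZ
      rcases mem_insert.1 hZ with rfl | hZ
      · exact hX
      · exact mem_singleton.1 hZ ▸ hY
    · intro A hA B hB hAB
      simp only [mem_insert, mem_singleton] at hA hB
      rcases hA with rfl | rfl <;> rcases hB with rfl | rfl
      · exact absurd rfl hAB
      · exact hd
      · rw [inter_comm]; exact hd
      · exact absurd rfl hAB
  have hsub : insert ({∅, {1}} : Finset (Finset ℕ)) (S1 ∪ S2) ⊆ ((F' n).powersetCard 2).filter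
      (fun Q => ∀ A ∈ Q, ∀ B ∈ Q, A ≠ B → A ∩ B = ∅) := by
    intro Q hQ
    rcases mem_insert.1 hQ with rfl | hQ
    · exact good _ _ (by simp [F']) (by simp [F']) e01 (by simp)
    rcases mem_union.1 hQ with h | h
    · obtain ⟨A, hA, rfl⟩ := mem_image.1 h
      exact good _ _ (by simp [F']) (by simp [F', hA]) (ne_empty hA).symm (by simp)
    · obtain ⟨A, hA, rfl⟩ := mem_image.1 h
      refine good _ _ (by simp [F']) (by simp [F', hA]) (fun h => e1 (h ▸ hA)) ?_
      simp [one_not_mem hA]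
  have := card_le_card hsub
  rw [card_insert_of_notMem nm, card_union_of_disjoint dj, c1, c2] at this
  unfold d
  omega

lemma counter (n : ℕ) (hn : Odd n) :
    ∃ F ⊆ P n, Avoiding 1 F ∧ d (Fstar n 1) < d F := by
  have h := Nat.odd_iff.1 hn
  have h1 := upper n h
  have h2 := lower n
  exact ⟨F' n, sub n (by omega), avoiding n (by omega), by omega⟩

theorem result :
    (∀ n : ℕ, Odd n → ∃ F ⊆ P n, Avoiding 1 F ∧ d (Fstar n 1) < d F) ∧
    ¬ (∀ t : ℕ, 1 ≤ t → ∃ n₀ : ℕ, ∀ n : ℕ, n₀ ≤ n → ∀ F ⊆ P n, Avoiding t F →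
        d F ≤ d (Fstar n t)) := by
  refine ⟨counter, fun h => ?_⟩
  obtain ⟨n₀, h⟩ := h 1 le_rfl
  obtain ⟨F, hF, ha, hd⟩ := counter (2 * n₀ + 1) ⟨n₀, rfl⟩
  exact absurd (h _ (by omega) F hF ha) (by omega)

end Pool.Agent.Results.MP_28c1b3_co.Counter
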